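import Pool.Agent.H211.HY.Stm3
import Pool.Agent.H263.HY211.DCR
import Pool.Agent.H263.AD211.EH
import Pool.Graph.R_seed8.Helper114.MontelSol

/-! Project HY (helper211), task NFE: the Julia set is the sphere. -/

set_option autoImplicit false

open Topology Filter Metric Set

namespace Pool.Agent.H551.HY211

open Pool.Agent.H790R3.RB Pool.Agent.H211.HY Pool.Agent.H263.HY211

/-! ### An attracting periodic point -/

/-- iterates which map `Ω` into a compact subset of `Ω` have an attracting periodic point -/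
theorem exists_attr {W Ω Γ : Set ℂ} {f : ℂ → ℂ} {B : ℝ} {z₀ : ℂ} {N N₀ : ℕ}
    (hfW : MapsTo f W W) (hdW : DifferentiableOn ℂ f W) (hΩo : IsOpen Ω)
    (hΩW : Ω ⊆ W) (hΓc : IsCompact Γ) (hΓΩ : Γ ⊆ Ω) (hΩB : ∀ z ∈ Ω, ‖z‖ ≤ B)
    (hN : ∀ n ≥ N, ∀ z ∈ Ω, f^[n] z ∈ Γ) (hN₀ : ∀ n ≥ N₀, f^[n] z₀ ∈ Γ) :
    ∃ p ∈ W, ∃ m : ℕ, f^[m] p = p ∧ ‖deriv f^[m] p‖ < 1 := by
  have hΩb : Bornology.IsBounded Ω :=
    (Metric.isBounded_closedBall (x := (0 : ℂ)) (r := B)).subset fun z hz => by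
      rw [mem_closedBall_zero_iff]
      exact hΩB z hz
  set w : ℕ → ℂ := fun n => f^[N₀ + n] z₀ with hw
  have hwΓ : ∀ n, w n ∈ Γ := fun n => hN₀ (N₀ + n) (Nat.le_add_right _ _)
  obtain ⟨q, hq, φ, hφ, hlim⟩ := hΓc.tendsto_subseq hwΓ
  have hm : ∀ i, (N + i) + φ i ≤ φ ((N + i) + i) := fun i => hφ.add_le_nat (N + i) i
  set F : ℕ → ℂ → ℂ := fun i => f^[φ ((N + i) + i) - φ i] with hF
  have hFw : ∀ i, F i (w (φ i)) = w (φ ((N + i) + i)) := by
    intro i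
    change f^[φ ((N + i) + i) - φ i] (f^[N₀ + φ i] z₀) = f^[N₀ + φ ((N + i) + i)] z₀
    have e : φ ((N + i) + i) - φ i + (N₀ + φ i) = N₀ + φ ((N + i) + i) := by
      have := hm i
      omega
    rw [← Function.iterate_add_apply, e]
  have hFd : ∀ i, DifferentiableOn ℂ (F i) Ω := fun i => (hdW.iterate hfW _).mono hΩW
  have hFΓ : ∀ i, ∀ z ∈ Ω, F i z ∈ Γ := fun i z hz => hN _ (by have := hm i; omega) z hz
  have hFb : ∀ i, ∀ z ∈ Ω, ‖F i z‖ ≤ B := fun i z hz => hΩB _ (hΓΩ (hFΓ i z hz))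
  set 𝒰 : Ultrafilter ℕ := Filter.hyperfilter ℕ with h𝒰
  have hle : (𝒰 : Filter ℕ) ≤ atTop := Nat.hyperfilter_le_atTop
  obtain ⟨ψ, hψd, hψ⟩ := Pool.Agent.Helper114.Montel.montel hΩo F hFd B hFb 𝒰
  have hψΓ : MapsTo ψ Ω Γ := by
    intro z hz
    exact hΓc.isClosed.mem_of_tendsto (hψ.tendsto_at hz) (Eventually.of_forall fun i => hFΓ i z hz)
  have hqΩ : q ∈ Ω := hΓΩ hq
  have hψc : ContinuousOn ψ Ω := hψd.continuousOn
  have hψq : ψ q = q := by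
    have h5 : Tendsto (fun i => w (φ i)) (𝒰 : Filter ℕ) (𝓝[Ω] q) :=
      tendsto_nhdsWithin_iff.2 ⟨hlim.mono_left hle, Eventually.of_forall fun i => hΓΩ (hwΓ _)⟩
    have h6 := hψ.tendsto_comp (hψc q hqΩ) hqΩ h5
    have h7 : Tendsto (fun i => w (φ ((N + i) + i))) (𝒰 : Filter ℕ) (𝓝 q) := by
      have h8 : Tendsto (fun i : ℕ => (N + i) + i) atTop atTop :=
        tendsto_atTop_mono (fun i => Nat.le_add_left i (N + i)) tendsto_id
      exact (hlim.comp h8).mono_left hle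
    simp only [hFw] at h6
    exact tendsto_nhds_unique h6 h7
  have hlt := Pool.Agent.H263.AD211.t_EH Ω Γ ψ q hΩo hΩb hΓc hΓΩ hψd hψΓ hqΩ hψq
  -- a small ball
  set l' : ℝ := (‖deriv ψ q‖ + 1) / 2 with hl'
  set l : ℝ := (l' + 1) / 2 with hl
  have hl'1 : l' < 1 := by rw [hl']; linarith
  have hl1 : l < 1 := by rw [hl]; linarith
  have hl'0 : 0 < l' := by
    have := norm_nonneg (deriv ψ q)
    rw [hl']; linarith
  have hl0 : 0 < l := by rw [hl]; linarith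
  have hdψc : ContinuousAt (deriv ψ) q :=
    ((hψd.deriv hΩo).differentiableAt (hΩo.mem_nhds hqΩ)).continuousAt
  have hev : ∀ᶠ z in 𝓝 q, z ∈ Ω ∧ ‖deriv ψ z‖ < l' := by
    refine (show ∀ᶠ z in 𝓝 q, z ∈ Ω from hΩo.mem_nhds hqΩ).and ?_
    refine hdψc.norm.eventually_lt continuousAt_const ?_
    rw [hl']; linarith
  obtain ⟨s, hs0, hsb⟩ := Metric.nhds_basis_closedBall.eventually_iff.1 hev
  have hsΩ : closedBall q s ⊆ Ω := fun z hz => (hsb hz).1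
  have hde := hψ.deriv (Eventually.of_forall hFd) hΩo
  have hun := (tendstoLocallyUniformlyOn_iff_forall_isCompact hΩo).1 hde (closedBall q s) hsΩ
    (isCompact_closedBall q s)
  have he1 := Metric.tendstoUniformlyOn_iff.1 hun (l - l') (by rw [hl]; linarith)
  have he2 : ∀ᶠ i in (𝒰 : Filter ℕ), dist (F i q) q < (1 - l) * s := by
    have h5 := hψ.tendsto_at hqΩ
    rw [hψq] at h5
    exact Metric.tendsto_nhds.1 h5 _ (mul_pos (by linarith) hs0)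
  obtain ⟨i, hi1, hi2⟩ := (he1.and he2).exists
  have hWo : ∀ z ∈ closedBall q s, DifferentiableAt ℂ (F i) z := fun z hz =>
    (hFd i).differentiableAt (hΩo.mem_nhds (hsΩ hz))
  have hbd : ∀ z ∈ closedBall q s, ‖deriv (F i) z‖ ≤ l := by
    intro z hz
    have h5 := hi1 z hz
    rw [dist_comm, dist_eq_norm] at h5
    have h6 := (hsb hz).2
    have h7 : ‖deriv (F i) z‖ ≤ ‖deriv (F i) z - deriv ψ z‖ + ‖deriv ψ z‖ := by
      have h8 := norm_add_le (deriv (F i) z - deriv ψ z) (deriv ψ z)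
      rwa [sub_add_cancel] at h8
    have h9 : ‖deriv (F i) z - deriv ψ z‖ < l - l' := h5
    linarith
  have hlip : ∀ x ∈ closedBall q s, ∀ y ∈ closedBall q s, ‖F i y - F i x‖ ≤ l * ‖y - x‖ :=
    fun x hx y hy => (convex_closedBall q s).norm_image_sub_le_of_norm_deriv_le hWo hbd hx hy
  have hqs : q ∈ closedBall q s := mem_closedBall_self hs0.le
  have hmaps : MapsTo (F i) (closedBall q s) (closedBall q s) := by
    intro z hz
    rw [mem_closedBall, dist_eq_norm] at hz ⊢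
    have h5 := hlip q hqs z (by rw [mem_closedBall, dist_eq_norm]; exact hz)
    rw [dist_eq_norm] at hi2
    have h6 : ‖F i z - q‖ ≤ ‖F i z - F i q‖ + ‖F i q - q‖ := by
      have h8 := norm_add_le (F i z - F i q) (F i q - q)
      rwa [sub_add_sub_cancel] at h8
    have h7 : l * ‖z - q‖ ≤ l * s := mul_le_mul_of_nonneg_left hz hl0.le
    linarith
  obtain ⟨p, hp1, hp2, _⟩ := ContractingWith.exists_fixedPoint' (K := ⟨l, hl0.le⟩)
    (isCompact_closedBall q s).isComplete hmaps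
    ⟨by exact_mod_cast hl1, LipschitzWith.of_dist_le_mul fun x y => by
      rw [Subtype.dist_eq, Subtype.dist_eq, dist_eq_norm, dist_eq_norm]
      exact hlip y.1 y.2 x.1 x.2⟩ hqs (edist_ne_top _ _)
  exact ⟨p, hΩW (hsΩ hp1), φ ((N + i) + i) - φ i, hp2, (hbd p hp1).trans_lt hl1⟩

/-! ### The coordinate with the given point at infinity -/

/-- the inverse of the coordinate -/
noncomputable def io (c : ℂ × ℂ) (ζ : ℂ) : ℂ × ℂ := ζ • c + rot c

/-- the coordinate -/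
noncomputable def co (c q : ℂ × ℂ) : ℂ := cr q (rot c) / cr c q

theorem cr_add_left (p q r : ℂ × ℂ) : cr (p + q) r = cr p r + cr q r := by
  unfold cr
  simp only [Prod.fst_add, Prod.snd_add]
  ring

theorem cr_add_right (p q r : ℂ × ℂ) : cr p (q + r) = cr p q + cr p r := by
  unfold cr
  simp only [Prod.fst_add, Prod.snd_add]
  ring

theorem cr_rot' (c : ℂ × ℂ) : cr c (rot c) = ((N2 c : ℝ) : ℂ) := by
  have h := cr_rot c 1
  rw [cr_add_right, cr_self, zero_add, one_smul, one_mul] at h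
  exact h

theorem cr_io (c : ℂ × ℂ) (ζ : ℂ) : cr c (io c ζ) = ((N2 c : ℝ) : ℂ) := by
  unfold io
  rw [cr_add_right, cr_smul_right, cr_self, mul_zero, zero_add, cr_rot']

theorem N2_io (c : ℂ × ℂ) (ζ : ℂ) : N2 (io c ζ) = (1 + ‖ζ‖ ^ 2) * N2 c := by
  unfold N2 io rot
  simp only [Prod.fst_add, Prod.snd_add, Prod.smul_fst, Prod.smul_snd, smul_eq_mul,
    Complex.sq_norm, Complex.normSq_apply, Complex.add_re, Complex.add_im, Complex.mul_re,
    Complex.mul_im, Complex.neg_re, Complex.neg_im, Complex.conj_re, Complex.conj_im]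
  ring

section coord

variable {c : ℂ × ℂ} (hc : c ≠ 0)

include hc

theorem N2c_ne : ((N2 c : ℝ) : ℂ) ≠ 0 := by
  exact_mod_cast (N2_pos hc).ne'

theorem io_ne (ζ : ℂ) : io c ζ ≠ 0 := by
  intro h
  have h1 := cr_io c ζ
  rw [h] at h1
  apply N2c_ne hc
  rw [← h1]
  simp [cr]

theorem co_io (ζ : ℂ) : co c (io c ζ) = ζ := by
  unfold co
  rw [cr_io, div_eq_iff (N2c_ne hc)]
  unfold io
  rw [cr_add_left, cr_smul_left, cr_self, add_zero, cr_rot']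

theorem eq_io {q : ℂ × ℂ} (hq : cr c q ≠ 0) :
    q = (cr c q / ((N2 c : ℝ) : ℂ)) • io c (co c q) := by
  have hN := N2c_ne hc
  have h1 : ((N2 c : ℝ) : ℂ) • q = cr q (rot c) • c + cr c q • rot c := by
    rw [← cr_rot']
    apply Prod.ext
    · simp only [Prod.smul_fst, Prod.fst_add, smul_eq_mul, cr]
      ring
    · simp only [Prod.smul_snd, Prod.snd_add, smul_eq_mul, cr]
      ring
  have h2 : cr c q • io c (co c q) = ((N2 c : ℝ) : ℂ) • q := by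
    rw [h1]
    unfold io co
    rw [smul_add, smul_smul, mul_div_cancel₀ _ hq]
  rw [div_eq_inv_mul, mul_smul, h2, smul_smul, inv_mul_cancel₀ hN, one_smul]

omit hc in
theorem co_smul {a : ℂ} (ha : a ≠ 0) (q : ℂ × ℂ) : co c (a • q) = co c q := by
  unfold co
  rw [cr_smul_left, cr_smul_right, mul_div_mul_left _ _ ha]

end coord

/-! ### The rational map in the coordinate -/

/-- the facts on the Julia set which are needed, with a point `c` of the Julia set -/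
structure Ju {d : ℕ} (x : CV d) (c : ℂ × ℂ) : Prop where
  nd : ND x
  c0 : c ≠ 0
  cJ : Jul x c
  cl : ∀ p : ℂ × ℂ, p ≠ 0 → (∀ δ > (0 : ℝ), ∃ q : ℂ × ℂ, q ≠ 0 ∧ cho p q < δ ∧ Jul x q) → Jul x p
  inv : ∀ p : ℂ × ℂ, p ≠ 0 → (Jul x (hF x p) ↔ Jul x p)
  par : ∀ p q : ℂ × ℂ, p ≠ 0 → q ≠ 0 → cr p q = 0 → Jul x p → Jul x q
  tri : ∀ p q r : ℂ × ℂ, p ≠ 0 → q ≠ 0 → r ≠ 0 → cho p r ≤ cho p q + cho q r
  csy : ∀ p q : ℂ × ℂ, cho p q = cho q p
  csm : ∀ (p q : ℂ × ℂ) (a b : ℂ), a ≠ 0 → b ≠ 0 → cho (a • p) (b • q) = cho p q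

/-- the rational map in the coordinate -/
noncomputable def fc {d : ℕ} (x : CV d) (c : ℂ × ℂ) (ζ : ℂ) : ℂ := co c (hF x (io c ζ))

/-- the complement of the Julia set in the coordinate -/
def Wc {d : ℕ} (x : CV d) (c : ℂ × ℂ) : Set ℂ := {ζ | ¬ Jul x (io c ζ)}

namespace Ju

variable {d : ℕ} {x : CV d} {c : ℂ × ℂ} (h : Ju x c)

include h

theorem cr_ne {q : ℂ × ℂ} (hq : q ≠ 0) (hqJ : ¬ Jul x q) : cr c q ≠ 0 := fun h1 =>
  hqJ (h.par c q h.c0 hq h1 h.cJ)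

theorem iter_inv {q : ℂ × ℂ} (hq : q ≠ 0) (n : ℕ) : Jul x ((hF x)^[n] q) ↔ Jul x q := by
  induction n with
  | zero => exact Iff.rfl
  | succ n ih =>
    rw [Function.iterate_succ_apply', h.inv _ (h.nd.iter_ne n hq), ih]

theorem notJul_iff {p q : ℂ × ℂ} (hp : p ≠ 0) (hq : q ≠ 0) (hpq : cr p q = 0) :
    Jul x p ↔ Jul x q := by
  refine ⟨h.par p q hp hq hpq, h.par q p hq hp ?_⟩
  rw [cr_comm, hpq, neg_zero]

theorem mem_of {q : ℂ × ℂ} (hq : q ≠ 0) (hqJ : ¬ Jul x q) :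
    co c q ∈ Wc x c ∧ ∃ a : ℂ, a ≠ 0 ∧ q = a • io c (co c q) := by
  have h1 := h.cr_ne hq hqJ
  have h2 := eq_io h.c0 h1
  have ha : cr c q / ((N2 c : ℝ) : ℂ) ≠ 0 := div_ne_zero h1 (N2c_ne h.c0)
  refine ⟨?_, _, ha, h2⟩
  intro hJ
  apply hqJ
  refine (h.notJul_iff (io_ne h.c0 _) hq ?_).1 hJ
  have h3 : cr (io c (co c q)) ((cr c q / ((N2 c : ℝ) : ℂ)) • io c (co c q)) = 0 := by
    rw [cr_smul_right, cr_self, mul_zero]
  rwa [← h2] at h3

theorem step {ζ : ℂ} (hζ : ζ ∈ Wc x c) :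
    fc x c ζ ∈ Wc x c ∧ ∃ a : ℂ, a ≠ 0 ∧ hF x (io c ζ) = a • io c (fc x c ζ) := by
  have h0 := io_ne h.c0 ζ
  have h1 : hF x (io c ζ) ≠ 0 := fun h2 => h0 (h.nd _ h2)
  have h2 : ¬ Jul x (hF x (io c ζ)) := fun h3 => hζ ((h.inv _ h0).1 h3)
  exact h.mem_of h1 h2

theorem mapsTo : MapsTo (fc x c) (Wc x c) (Wc x c) := fun _ hζ => (h.step hζ).1

theorem iter {ζ : ℂ} (hζ : ζ ∈ Wc x c) (n : ℕ) :
    (fc x c)^[n] ζ ∈ Wc x c ∧ ∃ a : ℂ, a ≠ 0 ∧ (hF x)^[n] (io c ζ) = a • io c ((fc x c)^[n] ζ) := by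
  induction n with
  | zero => exact ⟨hζ, 1, one_ne_zero, (one_smul _ _).symm⟩
  | succ n ih =>
    obtain ⟨h1, a, ha, h2⟩ := ih
    obtain ⟨h3, b, hb, h4⟩ := h.step h1
    rw [Function.iterate_succ_apply', Function.iterate_succ_apply']
    refine ⟨h3, a ^ d * b, mul_ne_zero (pow_ne_zero _ ha) hb, ?_⟩
    rw [h2, hF_smul, h4, smul_smul]

theorem cho_iter {ζ : ℂ} (hζ : ζ ∈ Wc x c) (n : ℕ) (q : ℂ × ℂ) :
    cho ((hF x)^[n] (io c ζ)) q = cho (io c ((fc x c)^[n] ζ)) q := by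
  obtain ⟨-, a, ha, h2⟩ := h.iter hζ n
  have h3 := h.csm (io c ((fc x c)^[n] ζ)) q a 1 ha one_ne_zero
  rw [one_smul] at h3
  rw [h2, h3]

theorem cho_cont (q : ℂ × ℂ) (hq : q ≠ 0) : Continuous fun ζ => cho (io c ζ) q := by
  unfold cho
  have h1 : Continuous fun ζ => io c ζ := by
    unfold io
    fun_prop
  refine Continuous.div ?_ ?_ fun ζ => ?_
  · have h2 : (fun ζ => ‖cr (io c ζ) q‖) = fun ζ => ‖cr q (io c ζ)‖ := by
      funext ζ
      rw [cr_comm, norm_neg]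
    rw [h2]
    exact ((continuous_cr q).comp h1).norm
  · exact ((continuous_N2.comp h1).mul continuous_const).sqrt
  · have h2 := N2_pos (io_ne h.c0 ζ)
    have h3 := N2_pos hq
    exact (Real.sqrt_pos.2 (mul_pos h2 h3)).ne'

theorem cho_near (ζ : ℂ) {ε : ℝ} (hε : 0 < ε) : ∀ᶠ ζ' in 𝓝 ζ, cho (io c ζ') (io c ζ) < ε := by
  have h1 := (h.cho_cont (io c ζ) (io_ne h.c0 ζ)).tendsto ζ
  rw [cho_self] at h1
  exact h1.eventually (gt_mem_nhds hε)

/-- positive distance to the Julia set -/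
theorem far {p : ℂ × ℂ} (hp : p ≠ 0) (hpJ : ¬ Jul x p) :
    ∃ δ > (0 : ℝ), ∀ q : ℂ × ℂ, q ≠ 0 → Jul x q → δ ≤ cho p q := by
  by_contra hcon
  push Not at hcon
  apply hpJ
  apply h.cl p hp
  intro δ hδ
  obtain ⟨q, hq, hqJ, hlt⟩ := hcon δ hδ
  exact ⟨q, hq, hlt, hqJ⟩

theorem isOpen_W : IsOpen (Wc x c) := by
  rw [isOpen_iff_mem_nhds]
  intro ζ hζ
  obtain ⟨δ, hδ, hfar⟩ := h.far (io_ne h.c0 ζ) hζ
  filter_upwards [h.cho_near ζ hδ] with ζ' hζ'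
  intro hJ
  have h1 := hfar _ (io_ne h.c0 ζ') hJ
  rw [h.csy] at h1
  linarith

theorem diff : DifferentiableOn ℂ (fc x c) (Wc x c) := by
  have hio : Differentiable ℂ (io c) := by
    unfold io
    fun_prop
  have hh : Differentiable ℂ fun ζ => hF x (io c ζ) := by
    have h1 := (hF_contDiff d 1).differentiable one_ne_zero
    have h2 : Differentiable ℂ (fun ζ : ℂ => ((x, io c ζ) : CV d × (ℂ × ℂ))) :=
      (differentiable_const x).prodMk hio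
    exact h1.comp h2
  have h1 : Differentiable ℂ fun ζ => cr (hF x (io c ζ)) (rot c) := by
    unfold cr
    exact (hh.fst.mul_const _).sub (hh.snd.mul_const _)
  have h2 : Differentiable ℂ fun ζ => cr c (hF x (io c ζ)) := by
    unfold cr
    exact (hh.snd.const_mul _).sub (hh.fst.const_mul _)
  intro ζ hζ
  have h3 : cr c (hF x (io c ζ)) ≠ 0 := by
    have h0 := io_ne h.c0 ζ
    refine h.cr_ne (fun h2 => h0 (h.nd _ h2)) fun h3 => hζ ((h.inv _ h0).1 h3)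
  exact ((h1 ζ).div (h2 ζ) h3).differentiableWithinAt

/-- branches of the inverses of the iterates -/
theorem exists_branch (hd : 2 ≤ d) (hcr : ∀ q : ℂ × ℂ, q ≠ 0 → wr x q = 0 → Jul x q)
    (hlift : S_LIFT) {p : ℂ} {s : ℝ} (hs : 0 < s) (hsW : ball p s ⊆ Wc x c) (n : ℕ) :
    ∀ z : ℂ × ℂ, z ≠ 0 → cr ((hF x)^[n] z) (io c p) = 0 →
      ∃ g : ℂ → ℂ × ℂ, DifferentiableOn ℂ g (ball p s) ∧
        (∀ w ∈ ball p s, g w ≠ 0 ∧ ¬ Jul x (g w) ∧ cr ((hF x)^[n] (g w)) (io c w) = 0) ∧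
        cr (g p) z = 0 := by
  induction n with
  | zero =>
    intro z hz hzp
    refine ⟨io c, ?_, fun w hw => ⟨io_ne h.c0 w, hsW hw, cr_self _⟩, ?_⟩
    · unfold io
      fun_prop
    · rw [cr_comm, neg_eq_zero]
      exact hzp
  | succ n ih =>
    intro z hz hzp
    rw [Function.iterate_succ_apply] at hzp
    have hFz : hF x z ≠ 0 := fun h2 => hz (h.nd _ h2)
    obtain ⟨g, hg1, hg2, hg3⟩ := ih (hF x z) hFz hzp
    have hno : ∀ w ∈ ball p s, ∀ q : ℂ × ℂ, q ≠ 0 → cr (hF x q) (g w) = 0 → wr x q ≠ 0 := by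
      intro w hw q hq hqg hwr
      have hFq : hF x q ≠ 0 := fun h2 => hq (h.nd _ h2)
      exact (hg2 w hw).2.1 (h.par _ _ hFq (hg2 w hw).1 hqg ((h.inv q hq).2 (hcr q hq hwr)))
    have hz2 : cr (hF x z) (g p) = 0 := by
      rw [cr_comm, hg3, neg_zero]
    obtain ⟨G, hG1, hG2, hG3⟩ := hlift d x hd h.nd g p s hs hg1 (fun w hw => (hg2 w hw).1) hno z hz
      hz2
    refine ⟨G, hG1, fun w hw => ⟨(hG2 w hw).1, ?_, ?_⟩, hG3⟩
    · intro hJ
      have hFG : hF x (G w) ≠ 0 := fun h2 => (hG2 w hw).1 (h.nd _ h2)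
      exact (hg2 w hw).2.1 (h.par _ _ hFG (hg2 w hw).1 (hG2 w hw).2
        ((h.inv _ (hG2 w hw).1).2 hJ))
    · rw [Function.iterate_succ_apply]
      have hFG : hF x (G w) ≠ 0 := fun h2 => (hG2 w hw).1 (h.nd _ h2)
      have h5 := cr_iter x n hFG (hg2 w hw).1 (hG2 w hw).2
      exact cr_trans (h.nd.iter_ne n (hg2 w hw).1) h5 (hg2 w hw).2.2

/-- branches in the coordinate -/
theorem exists_branch' (hd : 2 ≤ d) (hcr : ∀ q : ℂ × ℂ, q ≠ 0 → wr x q = 0 → Jul x q)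
    (hlift : S_LIFT) {p : ℂ} {s : ℝ} (hs : 0 < s) (hsW : ball p s ⊆ Wc x c) (n : ℕ)
    (hfix : (fc x c)^[n] p = p) :
    ∃ g : ℂ → ℂ, DifferentiableOn ℂ g (ball p s) ∧ g p = p ∧
      ∀ w ∈ ball p s, g w ∈ Wc x c ∧ (fc x c)^[n] (g w) = w := by
  have hp : p ∈ Wc x c := hsW (mem_ball_self hs)
  obtain ⟨-, a, ha, h2⟩ := h.iter hp n
  have h3 : cr ((hF x)^[n] (io c p)) (io c p) = 0 := by
    rw [h2, hfix, cr_smul_left, cr_self, mul_zero]
  obtain ⟨g, hg1, hg2, hg3⟩ := h.exists_branch hd hcr hlift hs hsW n (io c p) (io_ne h.c0 p) h3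
  refine ⟨fun w => co c (g w), ?_, ?_, ?_⟩
  · intro w hw
    have hgw := h.cr_ne (hg2 w hw).1 (hg2 w hw).2.1
    have hgd : DifferentiableWithinAt ℂ g (ball p s) w := hg1 w hw
    have k1 : DifferentiableWithinAt ℂ (fun w => cr (g w) (rot c)) (ball p s) w := by
      unfold cr
      exact (hgd.fst.mul_const _).sub (hgd.snd.mul_const _)
    have k2 : DifferentiableWithinAt ℂ (fun w => cr c (g w)) (ball p s) w := by
      unfold cr
      exact (hgd.snd.const_mul _).sub (hgd.fst.const_mul _)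
    exact k1.div k2 hgw
  · obtain ⟨b, hb, hgb⟩ := (cr_eq_zero_iff (hg2 p (mem_ball_self hs)).1 (io_ne h.c0 p)).1 hg3
    change co c (g p) = p
    rw [hgb, co_smul hb, co_io h.c0]
  · intro w hw
    obtain ⟨k1, b, hb, k2⟩ := h.mem_of (hg2 w hw).1 (hg2 w hw).2.1
    refine ⟨k1, ?_⟩
    obtain ⟨-, e, he, k3⟩ := h.iter k1 n
    have k4 : cr ((hF x)^[n] (g w)) (io c w) = 0 := (hg2 w hw).2.2
    rw [k2, hF_iter_smul, k3, smul_smul, cr_smul_left] at k4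
    have k5 : cr (io c ((fc x c)^[n] (co c (g w)))) (io c w) = 0 := by
      rcases mul_eq_zero.1 k4 with k | k
      · exact absurd k (mul_ne_zero (pow_ne_zero _ hb) he)
      · exact k
    obtain ⟨a', ha', k6⟩ := (cr_eq_zero_iff (io_ne h.c0 _) (io_ne h.c0 w)).1 k5
    have k7 := congrArg (co c) k6
    rw [co_io h.c0, co_smul ha', co_io h.c0] at k7
    exact k7

omit h in
theorem spd_io (hc : c ≠ 0) {g : ℂ → ℂ} {p g' : ℂ} (hg : HasDerivAt g g' p) :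
    spd (fun w => io c (g w)) p = ‖g'‖ / (1 + ‖g p‖ ^ 2) := by
  have h1 : HasDerivAt (fun w => io c (g w)) (g' • c) p := by
    unfold io
    exact (hg.smul_const c).add_const (rot c)
  unfold spd
  rw [h1.deriv, cr_smul_left, cr_io, N2_io, norm_mul, Complex.norm_real,
    Real.norm_of_nonneg (N2_pos hc).le]
  have h2 := N2_pos hc
  rw [mul_div_mul_right _ _ h2.ne']

end Ju

/-- periodic points outside the Julia set are not attracting -/
theorem one_le_deriv {d : ℕ} {x : CV d} {c : ℂ × ℂ} (h : Ju x c) (hd : 2 ≤ d)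
    (hcr : ∀ q : ℂ × ℂ, q ≠ 0 → wr x q = 0 → Jul x q) (hCE : CE x) (hcz : ∀ p q : ℂ × ℂ, p ≠ 0 →
      q ≠ 0 → (cho p q = 0 ↔ cr p q = 0))
    (hlift : S_LIFT) (hmm : S_MM) {p : ℂ} (hp : p ∈ Wc x c) {m : ℕ}
    (hm : (fc x c)^[m] p = p) : 1 ≤ ‖deriv (fc x c)^[m] p‖ := by
  have hdi : DifferentiableOn ℂ (fc x c)^[m] (Wc x c) := h.diff.iterate h.mapsTo m
  obtain ⟨s, hs0, hsW⟩ := Metric.isOpen_iff.1 h.isOpen_W p hp
  -- three directions of the Julia set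
  obtain ⟨e, he, k01, k12, k02⟩ := three hd h.nd hCE
  have heJ : ∀ i, Jul x (e i) := by
    intro i
    obtain ⟨h0, m, hm⟩ := he i
    exact (h.iter_inv h0 m).1 (hcr _ (h.nd.iter_ne m h0) hm)
  have cpos : ∀ a b : ℂ × ℂ, a ≠ 0 → b ≠ 0 → cr a b ≠ 0 → 0 < cho a b := by
    intro a b ha hb hab
    have h1 : 0 ≤ cho a b := by unfold cho; positivity
    exact lt_of_le_of_ne h1 (fun h => hab ((hcz a b ha hb).mp h.symm))
  set σ := min (cho (e 0) (e 1)) (min (cho (e 1) (e 2)) (cho (e 0) (e 2))) with hσ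
  have hσ0 : 0 < σ := by
    rw [hσ]
    exact lt_min (cpos _ _ (he 0).1 (he 1).1 k01)
      (lt_min (cpos _ _ (he 1).1 (he 2).1 k12) (cpos _ _ (he 0).1 (he 2).1 k02))
  obtain ⟨K, hK, hspd⟩ := hmm σ hσ0
  set D : ℝ := (1 + ‖p‖ ^ 2) * (K / s) with hD
  have hD0 : 0 < D := by positivity
  by_contra hlt
  push Not at hlt
  obtain ⟨k, hk⟩ := exists_pow_lt_of_lt_one (show (0 : ℝ) < 1 / (D + 1) by positivity) hlt
  have hfix : (fc x c)^[m * k] p = p := by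
    rw [Function.iterate_mul]
    exact Function.IsFixedPt.iterate hm k
  obtain ⟨g, hg1, hg2, hg3⟩ := h.exists_branch' hd hcr hlift hs0 hsW (m * k) hfix
  have hder : HasDerivAt (fc x c)^[m] (deriv (fc x c)^[m] p) p :=
    (hdi.differentiableAt (h.isOpen_W.mem_nhds hp)).hasDerivAt
  have hder2 : HasDerivAt (fc x c)^[m * k] (deriv (fc x c)^[m] p ^ k) p := by
    have h := HasDerivAt.iterate p hder hm k
    rw [← Function.iterate_mul] at h
    exact h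
  have hgd : HasDerivAt g (deriv g p) p :=
    (hg1.differentiableAt (ball_mem_nhds p hs0)).hasDerivAt
  have hcomp : HasDerivAt ((fc x c)^[m * k] ∘ g) (deriv (fc x c)^[m] p ^ k * deriv g p) p := by
    refine HasDerivAt.comp p ?_ hgd
    rw [hg2]
    exact hder2
  have hid : HasDerivAt ((fc x c)^[m * k] ∘ g) 1 p := by
    refine (hasDerivAt_id p).congr_of_eventuallyEq ?_
    filter_upwards [ball_mem_nhds p hs0] with x hx
    exact (hg3 x hx).2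
  have h1 := hcomp.unique hid
  have hcau : ‖deriv g p‖ ≤ D := by
    have k1 := hspd (fun w => io c (g w)) p s (e 0) (e 1) (e 2) hs0 (by
      unfold io
      exact (hg1.smul_const c).add_const _) (fun z _ => io_ne h.c0 _) (he 0).1 (he 1).1 (he 2).1
      (min_le_left _ _) ((min_le_right _ _).trans (min_le_left _ _))
      ((min_le_right _ _).trans (min_le_right _ _)) (by
        intro z hz
        have k2 : ∀ i, cr (io c (g z)) (e i) ≠ 0 := by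
          intro i k3
          exact (hg3 z hz).1 ((h.notJul_iff (io_ne h.c0 _) (he i).1 k3).2 (heJ i))
        exact ⟨k2 0, k2 1, k2 2⟩)
    rw [Ju.spd_io h.c0 hgd, hg2, div_le_iff₀ (by positivity)] at k1
    rw [hD]
    linarith
  have h5 : (1 : ℝ) = ‖deriv (fc x c)^[m] p‖ ^ k * ‖deriv g p‖ := by
    rw [← norm_pow, ← norm_mul, h1, norm_one]
  have h6 : ‖deriv (fc x c)^[m] p‖ ^ k * ‖deriv g p‖ ≤ 1 / (D + 1) * D :=
    mul_le_mul hk.le hcau (norm_nonneg _) (by positivity)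
  have h7 : 1 / (D + 1) * D < 1 := by
    rw [one_div_mul_eq_div, div_lt_one (by positivity)]
    linarith
  linarith

/-- **The Julia set is the sphere.** -/
theorem t_NFE (hcho : S_CHO) (hmm : S_MM) (hjul : S_JUL) (hlift : S_LIFT) : S_NFE := by
  intro d x hd hnd hCE hdeep p₀ hp₀
  by_contra hp₀J
  obtain ⟨tri, csy, cz, csm, -⟩ := hcho
  obtain ⟨j1, j2, j3, -, j5⟩ := hjul d x hd hnd
  obtain ⟨c, hc, hwc⟩ := exists_crit x hd
  have hcr : ∀ q : ℂ × ℂ, q ≠ 0 → wr x q = 0 → Jul x q := j5 hCE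
  have h : Ju x c := ⟨hnd, hc, hcr c hc hwc, j1, j2, j3, tri, fun p q => (csy p q).1, csm⟩
  obtain ⟨ϱ, hϱ, hdp⟩ := hdeep
  set Ω : Set ℂ := {ζ | ∃ η > ϱ / 2, ∀ q : ℂ × ℂ, q ≠ 0 → Jul x q → η ≤ cho (io c ζ) q} with hΩ
  set Γ : Set ℂ := {ζ | ∀ q : ℂ × ℂ, q ≠ 0 → Jul x q → ϱ ≤ cho (io c ζ) q} with hΓ
  have hΓΩ : Γ ⊆ Ω := fun ζ hζ => ⟨ϱ, by linarith, hζ⟩
  have hΩW : Ω ⊆ Wc x c := by
    rintro ζ ⟨η, hη, hζ⟩ hJ
    have h1 := hζ _ (io_ne hc ζ) hJ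
    rw [cho_self] at h1
    linarith
  have hΩo : IsOpen Ω := by
    rw [isOpen_iff_mem_nhds]
    rintro ζ ⟨η, hη, hζ⟩
    filter_upwards [h.cho_near ζ (ε := (η - ϱ / 2) / 2) (by linarith)] with ζ' hζ'
    refine ⟨η - (η - ϱ / 2) / 2, by linarith, fun q hq hqJ => ?_⟩
    have h1 := hζ q hq hqJ
    have h2 := tri (io c ζ) (io c ζ') q (io_ne hc ζ) (io_ne hc ζ') hq
    rw [h.csy (io c ζ) (io c ζ')] at h2
    linarith
  have hbd : ∀ ζ ∈ Ω, ‖ζ‖ ≤ 2 / ϱ := by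
    rintro ζ ⟨η, hη, hζ⟩
    have h1 := hζ c hc h.cJ
    have hN := N2_pos hc
    have h2 : cho (io c ζ) c ≤ 1 / (‖ζ‖ + 0) ∨ ‖ζ‖ = 0 := by
      by_cases h0 : ‖ζ‖ = 0
      · exact Or.inr h0
      · left
        have h0' : 0 < ‖ζ‖ := lt_of_le_of_ne (norm_nonneg _) (Ne.symm h0)
        unfold cho
        rw [cr_comm, norm_neg, cr_io, Complex.norm_real, Real.norm_of_nonneg hN.le, N2_io, add_zero]
        have h3 : ‖ζ‖ * N2 c ≤ √((1 + ‖ζ‖ ^ 2) * N2 c * N2 c) := by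
          apply Real.le_sqrt_of_sq_le
          nlinarith [mul_pos hN hN]
        have h4 : 0 < √((1 + ‖ζ‖ ^ 2) * N2 c * N2 c) := lt_of_lt_of_le (by positivity) h3
        rw [div_le_div_iff₀ h4 h0']
        linarith
    rcases h2 with h2 | h2
    · by_cases h0 : ‖ζ‖ = 0
      · rw [h0]; positivity
      · have h0' : 0 < ‖ζ‖ := lt_of_le_of_ne (norm_nonneg _) (Ne.symm h0)
        rw [add_zero] at h2
        have h5 : ϱ / 2 ≤ 1 / ‖ζ‖ := by linarith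
        rw [le_div_iff₀ h0'] at h5
        rw [le_div_iff₀ hϱ]
        linarith
    · rw [h2]; positivity
  have hΓcl : IsClosed Γ := by
    have h1 : Γ = ⋂ q : ℂ × ℂ, ⋂ (_ : q ≠ 0), ⋂ (_ : Jul x q), {ζ | ϱ ≤ cho (io c ζ) q} := by
      ext ζ
      simp only [hΓ, mem_ofPred_eq, mem_iInter]
    rw [h1]
    exact isClosed_iInter fun q => isClosed_iInter fun hq => isClosed_iInter fun _ =>
      isClosed_le continuous_const (h.cho_cont q hq)
  have hΓc : IsCompact Γ := by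
    refine (isCompact_closedBall (0 : ℂ) (2 / ϱ)).of_isClosed_subset hΓcl fun ζ hζ => ?_
    rw [mem_closedBall_zero_iff]
    exact hbd ζ (hΓΩ hζ)
  obtain ⟨N, hN⟩ := hdp (ϱ / 2) (by linarith)
  have hNΓ : ∀ n ≥ N, ∀ ζ ∈ Ω, (fc x c)^[n] ζ ∈ Γ := by
    rintro n hn ζ hζ q hq hqJ
    have hζW := hΩW hζ
    obtain ⟨η, hη, hζ'⟩ := hζ
    rw [← h.cho_iter hζW n q]
    exact hN n hn (io c ζ) (io_ne hc ζ) (fun q hq hqJ => lt_of_lt_of_le hη (hζ' q hq hqJ)) q hq hqJ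
  -- the starting point
  obtain ⟨hζ₀, -⟩ := h.mem_of hp₀ hp₀J
  set ζ₀ := co c p₀ with hζ₀'
  obtain ⟨δ, hδ, hfar⟩ := h.far (io_ne hc ζ₀) hζ₀
  obtain ⟨N₀, hN₀⟩ := hdp (δ / 2) (by linarith)
  have hN₀Γ : ∀ n ≥ N₀, (fc x c)^[n] ζ₀ ∈ Γ := by
    intro n hn q hq hqJ
    rw [← h.cho_iter hζ₀ n q]
    exact hN₀ n hn (io c ζ₀) (io_ne hc ζ₀) (fun q hq hqJ => by
      have := hfar q hq hqJ
      linarith) q hq hqJ
  obtain ⟨p, hp, m, hm, hlt⟩ := exists_attr h.mapsTo h.diff hΩo hΩW hΓc hΓΩ hbd hNΓ hN₀Γ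
  have h1 := one_le_deriv h hd hcr hCE cz hlift hmm hp hm
  linarith

end Pool.Agent.H551.HY211
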